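import Pool.Agent.helper30.LR.Parts

/-! Module D1 of MP_0ec205_nt, third round: decay of the archimedean part. -/

noncomputable section

namespace Pool.Agent.helper43.LS

open Complex MeasureTheory Set Filter Topology ArithmeticFunction
open Pool.Agent.helper30.LR

theorem norm_nat_add_lower {s : ℂ} (h1 : 1 / 4 ≤ s.re) (n : ℕ) :
    ((n : ℝ) + (|s.im| + 1)) / 8 ≤ ‖(n : ℂ) + s‖ := by
  have hn : (0 : ℝ) ≤ n := Nat.cast_nonneg n
  have d1 : (n : ℝ) + 1 / 4 ≤ ‖(n : ℂ) + s‖ := by
    have := re_le_norm ((n : ℂ) + s)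
    simp at this; linarith
  have d2 : |s.im| ≤ ‖(n : ℂ) + s‖ := by
    have := abs_im_le_norm ((n : ℂ) + s)
    simpa using this
  linarith [abs_nonneg s.im]

theorem dt_lip {s w : ℂ} (hs : 1 / 4 ≤ s.re) (hw : 1 / 4 ≤ w.re) (h : |w.im - s.im| ≤ 1 / 2)
    (n : ℕ) : ‖dt w n - dt s n‖ ≤ 128 * ‖w - s‖ * (1 / ((n : ℝ) + (|s.im| + 1)) ^ 2) := by
  have hn : (0 : ℝ) ≤ n := Nat.cast_nonneg n
  set x := |s.im| + 1 with hx
  have hx1 : 1 ≤ x := by rw [hx]; linarith [abs_nonneg s.im]
  have a1 := norm_nat_add_lower hs n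
  have a2 := norm_nat_add_lower hw n
  have a3 : x / 2 ≤ |w.im| + 1 := by
    have := abs_sub_abs_le_abs_sub s.im w.im
    rw [abs_sub_comm] at this
    linarith [abs_nonneg s.im]
  have a4 : ((n : ℝ) + x) / 16 ≤ ‖(n : ℂ) + w‖ := by linarith
  rw [← hx] at a1
  have c3 : 0 < (n : ℝ) + x := by positivity
  have c4 : (n : ℂ) + s ≠ 0 := by rw [← norm_pos_iff]; linarith
  have c5 : (n : ℂ) + w ≠ 0 := by rw [← norm_pos_iff]; linarith
  have c6 : dt w n - dt s n = (w - s) / (((n : ℂ) + s) * ((n : ℂ) + w)) := by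
    unfold dt; field_simp; ring
  rw [c6, norm_div, norm_mul]
  have c7 : ((n : ℝ) + x) / 8 * (((n : ℝ) + x) / 16) ≤ ‖(n : ℂ) + s‖ * ‖(n : ℂ) + w‖ := by
    gcongr
  have c8 : 0 < ((n : ℝ) + x) / 8 * (((n : ℝ) + x) / 16) := by positivity
  calc ‖w - s‖ / (‖(n : ℂ) + s‖ * ‖(n : ℂ) + w‖)
      ≤ ‖w - s‖ / (((n : ℝ) + x) / 8 * (((n : ℝ) + x) / 16)) := by gcongr
    _ = _ := by field_simp; ring

theorem gg_lip {t u : ℝ} (h : |u - t| ≤ 1) : |gg u - gg t| ≤ 256 / (|t| + 1) * |u - t| := by
  set s : ℂ := 1 / 4 + t / 2 * I with hs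
  set w : ℂ := 1 / 4 + u / 2 * I with hw
  have s1 : s.re = 1 / 4 := by simp [hs]
  have w1 : w.re = 1 / 4 := by simp [hw]
  have s2 : s.im = t / 2 := by simp [hs]
  have w2 : w.im = u / 2 := by simp [hw]
  have hx1 : 1 ≤ |s.im| + 1 := by linarith [abs_nonneg s.im]
  have e1 : ‖w - s‖ = |u - t| / 2 := by
    have : w - s = ((u - t) / 2 : ℝ) * I := by rw [hs, hw]; push_cast; ring
    rw [this, norm_mul, norm_I, mul_one, norm_real, Real.norm_eq_abs, abs_div, abs_two]
  have e2 : |w.im - s.im| ≤ 1 / 2 := by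
    rw [s2, w2, show u / 2 - t / 2 = (u - t) / 2 by ring, abs_div, abs_two]
    linarith
  have hs0 : 0 < s.re := by rw [s1]; norm_num
  have hw0 : 0 < w.re := by rw [w1]; norm_num
  have h3 : digamma w - digamma s = ∑' n, (dt w n - dt s n) := by
    rw [digamma_series hs0, digamma_series hw0, (summable_dt hw0).tsum_sub (summable_dt hs0)]
    ring
  obtain ⟨h4, h5⟩ := summable_inv_sq hx1
  have h6 : ‖digamma w - digamma s‖ ≤ 128 * ‖w - s‖ * (2 / (|s.im| + 1)) := by
    rw [h3]
    refine (tsum_of_norm_bounded (h4.mul_left (128 * ‖w - s‖)).hasSum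
      (dt_lip s1.ge w1.ge e2)).trans ?_
    rw [tsum_mul_left]
    gcongr
  have h7 : gg u - gg t = (digamma w - digamma s).re := by
    unfold gg; rw [sub_re]; ring
  rw [h7]
  refine (abs_re_le_norm _).trans (h6.trans ?_)
  rw [e1, s2, abs_div, abs_two]
  have h8 : 2 / (|t| / 2 + 1) ≤ 4 / (|t| + 1) := by
    have := abs_nonneg t
    rw [div_le_div_iff₀ (by positivity) (by positivity)]
    linarith
  calc 128 * (|u - t| / 2) * (2 / (|t| / 2 + 1)) ≤ 128 * (|u - t| / 2) * (4 / (|t| + 1)) := by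
        gcongr
    _ = _ := by ring

theorem gg_diff (t : ℝ) : DifferentiableAt ℝ gg t := by
  unfold gg
  have h1 : DifferentiableAt ℂ digamma (1 / 4 + t / 2 * I) := digamma_diff (by simp)
  have h2 : DifferentiableAt ℝ digamma (1 / 4 + t / 2 * I) := h1.restrictScalars ℝ
  have h3 : DifferentiableAt ℝ (fun t : ℝ => (1 / 4 + t / 2 * I : ℂ)) t := by
    have : DifferentiableAt ℝ (fun t : ℝ => (t : ℂ)) t := Complex.ofRealCLM.differentiableAt
    exact ((this.div_const 2).mul_const I).const_add _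
  have h4 : DifferentiableAt ℝ (fun t : ℝ => digamma (1 / 4 + t / 2 * I)) t :=
    DifferentiableAt.comp (f := fun t : ℝ => (1 / 4 + t / 2 * I : ℂ)) t h2 h3
  have h5 : DifferentiableAt ℝ (fun t : ℝ => (digamma (1 / 4 + t / 2 * I)).re) t :=
    (Complex.reCLM.differentiableAt).comp t h4
  exact h5.const_add _

theorem gg_deriv_le (t : ℝ) : |deriv gg t| ≤ 256 / (|t| + 1) := by
  have h := (gg_diff t).hasDerivAt
  rw [← Real.norm_eq_abs]
  refine h.le_of_lip' (by positivity) ?_
  have : ∀ᶠ u in 𝓝 t, |u - t| ≤ 1 := by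
    filter_upwards [Metric.closedBall_mem_nhds t one_pos] with u hu
    simpa [Real.dist_eq] using hu
  filter_upwards [this] with u hu
  rw [Real.norm_eq_abs, Real.norm_eq_abs]
  exact gg_lip hu

/-- the Gaussian factor used in all bounds -/
def E2 (H t : ℝ) : ℝ := Real.exp (-(1 / (2 * H ^ 2)) * t ^ 2)

theorem E2_integrable {H : ℝ} (hH : 0 < H) : Integrable (E2 H) :=
  integrable_exp_neg_mul_sq (by positivity)

theorem E2_integral {H : ℝ} (hH : 0 < H) : ∫ t, E2 H t ≤ 3 * H := by
  unfold E2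
  rw [integral_gaussian]
  rw [Real.sqrt_le_left (by positivity)]
  have h1 : Real.pi / (1 / (2 * H ^ 2)) = 2 * Real.pi * H ^ 2 := by field_simp
  rw [h1]
  have := Real.pi_lt_four
  nlinarith [sq_nonneg H, sq_pos_of_pos hH]

theorem exp_split {H : ℝ} (t : ℝ) : Real.exp (-(t ^ 2 / H ^ 2)) = E2 H t * E2 H t := by
  unfold E2
  rw [← Real.exp_add]
  congr 1
  by_cases h : H = 0
  · simp [h]
  · field_simp; ring

theorem log_succ_le {H : ℝ} (hH : 2 ≤ H) : Real.log (H + 1) ≤ 2 * Real.log H := by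
  have : Real.log (H ^ 2) = 2 * Real.log H := by rw [Real.log_pow]; norm_num
  rw [← this]
  exact Real.log_le_log (by linarith) (by nlinarith)

theorem one_le_log {H : ℝ} (hH : 2 ≤ H) : 1 ≤ 2 * Real.log H := by
  have h1 := Real.log_two_gt_d9
  have h2 := Real.log_le_log two_pos hH
  linarith

theorem poly_E2 {H : ℝ} (hH : 0 < H) (t : ℝ) :
    (1 + |t| / H + (|t| / H) ^ 2) * E2 H t ≤ 4 := by
  have h1 : 1 + t ^ 2 / (2 * H ^ 2) ≤ Real.exp (t ^ 2 / (2 * H ^ 2)) := by
    have := Real.add_one_le_exp (t ^ 2 / (2 * H ^ 2)); linarith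
  have h2 : E2 H t = (Real.exp (t ^ 2 / (2 * H ^ 2)))⁻¹ := by
    unfold E2; rw [← Real.exp_neg]; congr 1; ring
  have h3 : t ^ 2 / (2 * H ^ 2) = (|t| / H) ^ 2 / 2 := by
    rw [div_pow, sq_abs]; field_simp
  rw [h2, ← div_eq_mul_inv, div_le_iff₀ (Real.exp_pos _)]
  rw [h3] at h1 ⊢
  nlinarith [sq_nonneg (|t| / H - 1)]

theorem gg_le {H : ℝ} (hH : 2 ≤ H) (t : ℝ) : |gg t| ≤ 74 * Real.log H + |t| / H := by
  have h1 := gg_log t
  have h0 := abs_nonneg t
  have hH0 : 0 < H := by linarith
  have h2 : Real.log (|t| + 1) ≤ Real.log (H + 1) + |t| / H := by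
    have a : |t| + 1 ≤ (H + 1) * (|t| / H + 1) := by
      have : (H + 1) * (|t| / H + 1) = |t| + |t| / H + H + 1 := by field_simp; ring
      rw [this]
      have : 0 ≤ |t| / H := by positivity
      linarith
    have b := Real.log_le_log (by positivity) a
    rw [Real.log_mul (by positivity) (by positivity)] at b
    have c := Real.log_le_sub_one_of_pos (x := |t| / H + 1) (by positivity)
    linarith
  have h3 := log_succ_le hH
  have h4 := one_le_log hH
  have h5 : 0 ≤ Real.log (|t| + 1) := Real.log_nonneg (by linarith)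
  rw [abs_le] at h1 ⊢
  constructor <;> linarith [h1.1, h1.2]

/-- the function whose cosine transform is `Ar` -/
def ff (H t : ℝ) : ℝ := Real.exp (-(t ^ 2 / H ^ 2)) * gg t

/-- its derivative -/
def ff' (H t : ℝ) : ℝ := Real.exp (-(t ^ 2 / H ^ 2)) * (deriv gg t - 2 * t / H ^ 2 * gg t)

theorem ff_deriv (H t : ℝ) : HasDerivAt (ff H) (ff' H t) t := by
  have h1 : HasDerivAt (fun t : ℝ => -(t ^ 2 / H ^ 2)) (-(2 * t / H ^ 2)) t := by
    have := ((hasDerivAt_pow 2 t).div_const (H ^ 2)).fun_neg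
    simpa using this
  have h2 := h1.exp.mul (gg_diff t).hasDerivAt
  refine (h2.congr_deriv ?_)
  unfold ff'; ring

theorem ff_le {H : ℝ} (hH : 2 ≤ H) (t : ℝ) : |ff H t| ≤ 304 * Real.log H * E2 H t := by
  have hH0 : 0 < H := by linarith
  have h1 := gg_le hH t
  have h2 := poly_E2 hH0 t
  have h3 := one_le_log hH
  have hE : 0 < E2 H t := Real.exp_pos _
  have hy : 0 ≤ |t| / H := by positivity
  unfold ff
  rw [exp_split, abs_mul, abs_of_pos (mul_pos hE hE)]
  have h4 : |gg t| * E2 H t ≤ 304 * Real.log H := by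
    calc |gg t| * E2 H t ≤ (74 * Real.log H + |t| / H) * E2 H t := by gcongr
      _ ≤ (76 * Real.log H * (1 + |t| / H + (|t| / H) ^ 2)) * E2 H t := by
          gcongr
          nlinarith [mul_nonneg (by linarith : (0 : ℝ) ≤ 2 * Real.log H - 1) hy,
            mul_nonneg (by linarith : (0 : ℝ) ≤ Real.log H) (sq_nonneg (|t| / H)),
            mul_nonneg (by linarith : (0 : ℝ) ≤ Real.log H) hy]
      _ = 76 * Real.log H * ((1 + |t| / H + (|t| / H) ^ 2) * E2 H t) := by ring
      _ ≤ 76 * Real.log H * 4 := by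
          have : 0 ≤ Real.log H := by linarith
          gcongr
      _ = _ := by ring
  calc E2 H t * E2 H t * |gg t| = (|gg t| * E2 H t) * E2 H t := by ring
    _ ≤ _ := by gcongr

theorem ff'_le {H : ℝ} (hH : 2 ≤ H) (t : ℝ) : |ff' H t| ≤
    (Icc (-H) H).indicator (fun t => 256 / (|t| + 1)) t + 1120 * (Real.log H / H) * E2 H t := by
  have hH0 : 0 < H := by linarith
  have h1 := gg_le hH t
  have h2 := poly_E2 hH0 t
  have h3 := one_le_log hH
  have hE : 0 < E2 H t := Real.exp_pos _
  have hE1 : E2 H t ≤ 1 := by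
    unfold E2
    rw [Real.exp_le_one_iff]
    have : 0 ≤ 1 / (2 * H ^ 2) * t ^ 2 := by positivity
    linarith
  have hy : 0 ≤ |t| / H := by positivity
  have hd := gg_deriv_le t
  have a1 : E2 H t * E2 H t * |deriv gg t| ≤
      (Icc (-H) H).indicator (fun t => 256 / (|t| + 1)) t + 512 * (Real.log H / H) * E2 H t := by
    by_cases ht : t ∈ Icc (-H) H
    · rw [indicator_of_mem ht]
      have b1 : E2 H t * E2 H t ≤ 1 := by nlinarith
      have b2 : E2 H t * E2 H t * |deriv gg t| ≤ 1 * (256 / (|t| + 1)) := by gcongr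
      have b3 : 0 ≤ 512 * (Real.log H / H) * E2 H t := by
        have : 0 ≤ Real.log H := by linarith
        positivity
      linarith
    · rw [indicator_of_notMem ht, zero_add]
      have c1 : H ≤ |t| := by
        by_contra hc
        push Not at hc
        exact ht ⟨(abs_lt.1 hc).1.le, (abs_lt.1 hc).2.le⟩
      have c2 : |deriv gg t| ≤ 512 * (Real.log H / H) := by
        refine hd.trans ?_
        calc 256 / (|t| + 1) ≤ 256 / H := by gcongr; linarith
          _ = 256 * 1 / H := by ring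
          _ ≤ 256 * (2 * Real.log H) / H := by gcongr
          _ = _ := by ring
      calc E2 H t * E2 H t * |deriv gg t| ≤ 1 * E2 H t * (512 * (Real.log H / H)) := by gcongr
        _ = _ := by ring
  have a2 : E2 H t * E2 H t * |2 * t / H ^ 2 * gg t| ≤ 608 * (Real.log H / H) * E2 H t := by
    have b1 : |2 * t / H ^ 2 * gg t| = 2 / H * ((|t| / H) * |gg t|) := by
      rw [abs_mul, abs_div, abs_mul, abs_two, abs_of_pos (by positivity : 0 < H ^ 2)]
      field_simp
    have b2 : (|t| / H) * |gg t| * E2 H t ≤ 304 * Real.log H := by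
      have b3 : (|t| / H) * (74 * Real.log H + |t| / H) ≤
          76 * Real.log H * (1 + |t| / H + (|t| / H) ^ 2) := by
        nlinarith [mul_nonneg (by linarith : (0 : ℝ) ≤ 2 * Real.log H - 1)
              (sq_nonneg (|t| / H)), mul_nonneg (by linarith : (0 : ℝ) ≤ Real.log H)
              (sq_nonneg (|t| / H)), mul_nonneg (by linarith : (0 : ℝ) ≤ Real.log H) hy]
      calc (|t| / H) * |gg t| * E2 H t ≤ (|t| / H) * (74 * Real.log H + |t| / H) * E2 H t := by
            gcongr
        _ ≤ (76 * Real.log H * (1 + |t| / H + (|t| / H) ^ 2)) * E2 H t :=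
            mul_le_mul_of_nonneg_right b3 hE.le
        _ = 76 * Real.log H * ((1 + |t| / H + (|t| / H) ^ 2) * E2 H t) := by ring
        _ ≤ 76 * Real.log H * 4 := by
            have : 0 ≤ Real.log H := by linarith
            gcongr
        _ = _ := by ring
    rw [b1]
    calc E2 H t * E2 H t * (2 / H * ((|t| / H) * |gg t|)) =
        2 / H * ((|t| / H) * |gg t| * E2 H t) * E2 H t := by ring
      _ ≤ 2 / H * (304 * Real.log H) * E2 H t := by gcongr
      _ = _ := by ring
  unfold ff'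
  rw [exp_split, abs_mul, abs_of_pos (mul_pos hE hE)]
  have a3 := abs_sub (deriv gg t) (2 * t / H ^ 2 * gg t)
  calc E2 H t * E2 H t * |deriv gg t - 2 * t / H ^ 2 * gg t| ≤
      E2 H t * E2 H t * (|deriv gg t| + |2 * t / H ^ 2 * gg t|) := by gcongr
    _ = E2 H t * E2 H t * |deriv gg t| + E2 H t * E2 H t * |2 * t / H ^ 2 * gg t| := by ring
    _ ≤ _ := by linarith

theorem ind_integral {H : ℝ} (hH : 2 ≤ H) :
    Integrable ((Icc (-H) H).indicator (fun t : ℝ => 256 / (|t| + 1))) ∧
    ∫ t, (Icc (-H) H).indicator (fun t : ℝ => 256 / (|t| + 1)) t ≤ 1024 * Real.log H := by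
  have hc : Continuous fun t : ℝ => 256 / (|t| + 1) := by
    refine continuous_const.div (continuous_abs.add continuous_const) fun t => ?_
    have := abs_nonneg t; positivity
  have hi : IntegrableOn (fun t : ℝ => 256 / (|t| + 1)) (Icc (-H) H) :=
    hc.continuousOn.integrableOn_compact isCompact_Icc
  refine ⟨(integrable_indicator_iff measurableSet_Icc).2 hi, ?_⟩
  rw [integral_indicator measurableSet_Icc, integral_Icc_eq_integral_Ioc,
    ← intervalIntegral.integral_of_le (by linarith)]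
  have hs : ∀ a b : ℝ, IntervalIntegrable (fun t : ℝ => 256 / (|t| + 1)) volume a b :=
    fun a b => hc.intervalIntegrable a b
  rw [← intervalIntegral.integral_add_adjacent_intervals (hs (-H) 0) (hs 0 H)]
  have e1 : ∫ t in (0 : ℝ)..H, 256 / (|t| + 1) = 256 * Real.log (H + 1) := by
    have h1 : ∫ t in (0 : ℝ)..H, 256 / (|t| + 1) = ∫ t in (0 : ℝ)..H, 256 / (t + 1) := by
      refine intervalIntegral.integral_congr fun t ht => ?_
      rw [uIcc_of_le (by linarith)] at ht
      simp only [abs_of_nonneg ht.1]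
    rw [h1]
    have h2 : ∀ t ∈ uIcc 0 H, HasDerivAt (fun t : ℝ => 256 * Real.log (t + 1)) (256 / (t + 1)) t := by
      intro t ht
      rw [uIcc_of_le (by linarith)] at ht
      have h3 : t + 1 ≠ 0 := by linarith [ht.1]
      have := (((hasDerivAt_id t).add_const 1).log h3).const_mul 256
      refine this.congr_deriv ?_
      simp only [id]; ring
    have h4 : IntervalIntegrable (fun t : ℝ => 256 / (t + 1)) volume 0 H := by
      refine ContinuousOn.intervalIntegrable fun t ht => ?_
      rw [uIcc_of_le (by linarith)] at ht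
      have h3 : t + 1 ≠ 0 := by linarith [ht.1]
      exact (continuousAt_const.div (continuousAt_id.add continuousAt_const) h3).continuousWithinAt
    rw [intervalIntegral.integral_eq_sub_of_hasDerivAt h2 h4]
    simp
  have e2 : ∫ t in (-H)..(0 : ℝ), 256 / (|t| + 1) = ∫ t in (0 : ℝ)..H, 256 / (|t| + 1) := by
    have := intervalIntegral.integral_comp_neg (fun t : ℝ => 256 / (|t| + 1)) (a := 0) (b := H)
    simp only [abs_neg, neg_zero] at this
    exact this.symm
  rw [e2, e1]
  have := log_succ_le hH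
  linarith

theorem ff_cont (H : ℝ) : Continuous (ff H) := by
  unfold ff
  exact (by fun_prop : Continuous fun t : ℝ => Real.exp (-(t ^ 2 / H ^ 2))).mul gg_continuous

theorem ff_int {H : ℝ} (hH : 2 ≤ H) : Integrable (ff H) :=
  ((E2_integrable (by linarith)).const_mul (304 * Real.log H)).mono'
    (ff_cont H).aestronglyMeasurable (Eventually.of_forall fun t => ff_le hH t)

theorem ff'_meas (H : ℝ) : Measurable (ff' H) := by
  unfold ff'
  have h1 : Measurable (deriv gg) := measurable_deriv gg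
  have h2 : Measurable gg := gg_continuous.measurable
  fun_prop

theorem ff'_int {H : ℝ} (hH : 2 ≤ H) : Integrable (ff' H) ∧ ∫ t, |ff' H t| ≤ 4384 * Real.log H := by
  obtain ⟨h1, h2⟩ := ind_integral hH
  have hH0 : 0 < H := by linarith
  have h3 := (E2_integrable hH0).const_mul (1120 * (Real.log H / H))
  have h4 : Integrable (ff' H) := (h1.add h3).mono' (ff'_meas H).aestronglyMeasurable
    (Eventually.of_forall fun t => ff'_le hH t)
  refine ⟨h4, ?_⟩
  have h5 : ∫ t, |ff' H t| ≤ ∫ t, ((Icc (-H) H).indicator (fun t => 256 / (|t| + 1)) t +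
      1120 * (Real.log H / H) * E2 H t) :=
    integral_mono h4.abs (h1.add h3) fun t => ff'_le hH t
  refine h5.trans ?_
  rw [integral_add h1 h3, integral_const_mul]
  have h6 := E2_integral hH0
  have h7 : 0 ≤ Real.log H := by linarith [one_le_log hH]
  have h8 : 1120 * (Real.log H / H) * ∫ t, E2 H t ≤ 1120 * (Real.log H / H) * (3 * H) := by gcongr
  have h9 : 1120 * (Real.log H / H) * (3 * H) = 3360 * Real.log H := by field_simp; ring
  linarith

theorem arch_decay : ∃ C : ℝ, 0 < C ∧ ∀ H : ℝ, 2 ≤ H → ∀ x : ℝ, x ≠ 0 →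
    |Ar H x| ≤ C * Real.log H / |x| := by
  refine ⟨4384, by norm_num, fun H hH x hx => ?_⟩
  have hv : ∀ t : ℝ, HasDerivAt (fun t : ℝ => Real.sin (x * t) / x) (Real.cos (x * t)) t := by
    intro t
    have h1 : HasDerivAt (fun t : ℝ => x * t) x t := by
      simpa using (hasDerivAt_id t).const_mul x
    have h2 := (h1.sin).div_const x
    refine h2.congr_deriv ?_
    field_simp
  have hb : ∀ t : ℝ, |Real.sin (x * t) / x| ≤ 1 / |x| := by
    intro t
    rw [abs_div]
    have := Real.abs_sin_le_one (x * t)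
    gcongr
  have hvc : Continuous fun t : ℝ => Real.sin (x * t) / x := by fun_prop
  have hcc : Continuous fun t : ℝ => Real.cos (x * t) := by fun_prop
  have i1 : Integrable (ff H * fun t => Real.cos (x * t)) :=
    (ff_int hH).mul_bdd (c := 1) hcc.aestronglyMeasurable
      (Eventually.of_forall fun t => by
        rw [Real.norm_eq_abs]; exact Real.abs_cos_le_one _)
  have i2 : Integrable (ff' H * fun t => Real.sin (x * t) / x) :=
    (ff'_int hH).1.mul_bdd (c := 1 / |x|) hvc.aestronglyMeasurable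
      (Eventually.of_forall fun t => by rw [Real.norm_eq_abs]; exact hb t)
  have i3 : Integrable (ff H * fun t => Real.sin (x * t) / x) :=
    (ff_int hH).mul_bdd (c := 1 / |x|) hvc.aestronglyMeasurable
      (Eventually.of_forall fun t => by rw [Real.norm_eq_abs]; exact hb t)
  have key := integral_mul_deriv_eq_deriv_mul_of_integrable (fun t _ => ff_deriv H t)
    (fun t _ => hv t) i1 i2 i3
  have e : Ar H x = ∫ t : ℝ, ff H t * Real.cos (x * t) := by
    unfold Ar ff
    refine integral_congr_ae (Eventually.of_forall fun t => ?_)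
    ring
  rw [e, key, abs_neg]
  refine (abs_integral_le_integral_abs).trans ?_
  have h1 : ∫ t, |ff' H t * (Real.sin (x * t) / x)| ≤ ∫ t, |ff' H t| * (1 / |x|) := by
    refine integral_mono i2.abs ((ff'_int hH).1.abs.mul_const _) fun t => ?_
    simp only [abs_mul]
    have := hb t
    gcongr
  refine h1.trans ?_
  rw [integral_mul_const]
  have h2 := (ff'_int hH).2
  rw [mul_one_div]
  gcongr

end Pool.Agent.helper43.LS
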